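import Mathlib

/-!
Bounds for the l1 norm of the coefficients of an integer polynomial in a residue class mod q.
-/

namespace Pool.Agent.Lib.MP_b384de_nt

open Polynomial Finset

/-- The height of an integer polynomial: the largest absolute value of a coefficient. -/
def height (f : ℤ[X]) : ℕ := f.support.sup (fun i => (f.coeff i).natAbs)

theorem natAbs_coeff_le_height (f : ℤ[X]) (i : ℕ) : (f.coeff i).natAbs ≤ height f := by
  by_cases h : f.coeff i = 0
  · simp [h]
  · exact Finset.le_sup (f := fun i => (f.coeff i).natAbs) (mem_support_iff.mpr h)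

theorem abs_coeff_le_height (f : ℤ[X]) (i : ℕ) : |f.coeff i| ≤ (height f : ℤ) := by
  have := natAbs_coeff_le_height f i
  rw [Int.abs_eq_natAbs]
  exact_mod_cast this

theorem height_le_of_abs_le {f : ℤ[X]} {C : ℕ} (h : ∀ i, |f.coeff i| ≤ (C : ℤ)) :
    height f ≤ C := by
  refine Finset.sup_le fun i _ => ?_
  have := h i
  rw [Int.abs_eq_natAbs] at this
  exact_mod_cast this

theorem exists_coeff_eq_height (f : ℤ[X]) : ∃ i, (f.coeff i).natAbs = height f := by
  by_cases h : f = 0
  · exact ⟨0, by simp [h, height]⟩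
  · obtain ⟨i, -, hi⟩ := Finset.exists_mem_eq_sup f.support
      (by simpa [Finset.nonempty_iff_ne_empty] using h) (fun i => (f.coeff i).natAbs)
    exact ⟨i, hi.symm⟩

theorem height_neg (f : ℤ[X]) : height (-f) = height f := by
  simp [height]

/-- `Bd q u r C`: the coefficients of `u` whose index is congruent to `r` mod `q` have
absolute values adding up to at most `C`. -/
def Bd (q : ℕ) (u : ℤ[X]) (r : ℕ) (C : ℤ) : Prop :=
  ∀ N : ℕ, ∑ n ∈ (range N).filter (fun n => n % q = r % q), |u.coeff n| ≤ C

theorem Bd.mono {q : ℕ} {u : ℤ[X]} {r : ℕ} {C D : ℤ} (h : Bd q u r C) (hCD : C ≤ D) :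
    Bd q u r D := fun N => (h N).trans hCD

theorem Bd.sub {q : ℕ} {u v : ℤ[X]} {r : ℕ} {C D : ℤ} (hu : Bd q u r C) (hv : Bd q v r D) :
    Bd q (u - v) r (C + D) := by
  intro N
  calc ∑ n ∈ (range N).filter (fun n => n % q = r % q), |(u - v).coeff n|
      ≤ ∑ n ∈ (range N).filter (fun n => n % q = r % q), (|u.coeff n| + |v.coeff n|) := by
        refine Finset.sum_le_sum fun n _ => ?_
        rw [coeff_sub]
        exact abs_sub _ _
    _ ≤ C + D := by
        rw [Finset.sum_add_distrib]
        exact add_le_add (hu N) (hv N)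

theorem bd_sum_X {ι : Type*} (q : ℕ) (S : Finset ι) (f : ι → ℕ) (r : ℕ) :
    Bd q (∑ s ∈ S, (X : ℤ[X]) ^ (f s)) r ((S.filter (fun s => f s % q = r % q)).card : ℤ) := by
  classical
  intro N
  calc ∑ n ∈ (range N).filter (fun n => n % q = r % q), |(∑ s ∈ S, (X : ℤ[X]) ^ (f s)).coeff n|
      ≤ ∑ n ∈ (range N).filter (fun n => n % q = r % q),
          ∑ s ∈ S, (if n = f s then (1 : ℤ) else 0) := by
        refine Finset.sum_le_sum fun n _ => ?_
        rw [finsetSum_coeff]
        refine (Finset.abs_sum_le_sum_abs _ _).trans (le_of_eq ?_)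
        refine Finset.sum_congr rfl fun s _ => ?_
        rw [coeff_X_pow]
        split_ifs <;> simp
    _ = ∑ s ∈ S, ∑ n ∈ (range N).filter (fun n => n % q = r % q),
          (if n = f s then (1 : ℤ) else 0) := Finset.sum_comm
    _ ≤ ∑ s ∈ S, (if f s % q = r % q then (1 : ℤ) else 0) := by
        refine Finset.sum_le_sum fun s _ => ?_
        rw [Finset.sum_ite_eq']
        split_ifs with h1 h2 h3
        · exact le_refl _
        · exact absurd (Finset.mem_filter.mp h1).2 h2
        · exact zero_le_one
        · exact le_refl _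
    _ = _ := by
        rw [Finset.sum_ite, Finset.sum_const_zero, add_zero, Finset.sum_const, nsmul_eq_mul,
          mul_one]

theorem abs_coeff_mul_expand_le {q : ℕ} (hq : 0 < q) {u g : ℤ[X]} {C : ℤ}
    (hu : ∀ r, Bd q u r C) (n : ℕ) :
    |(u * expand ℤ q g).coeff n| ≤ C * (height g : ℤ) := by
  rw [coeff_mul]
  calc |∑ x ∈ antidiagonal n, u.coeff x.1 * (expand ℤ q g).coeff x.2|
      ≤ ∑ x ∈ antidiagonal n, |u.coeff x.1 * (expand ℤ q g).coeff x.2| :=
        Finset.abs_sum_le_sum_abs _ _
    _ ≤ ∑ x ∈ antidiagonal n, (if x.1 % q = n % q then |u.coeff x.1| else 0) * (height g : ℤ) := by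
        refine Finset.sum_le_sum fun x hx => ?_
        rw [Finset.HasAntidiagonal.mem_antidiagonal] at hx
        rw [abs_mul, coeff_expand hq]
        by_cases hd : q ∣ x.2
        · have h1 : x.1 % q = n % q := by
            obtain ⟨k, hk⟩ := hd
            rw [← hx, hk, Nat.add_mul_mod_self_left]
          rw [if_pos hd, if_pos h1]
          exact mul_le_mul_of_nonneg_left (abs_coeff_le_height g _) (abs_nonneg _)
        · rw [if_neg hd, abs_zero, mul_zero]
          split_ifs
          · positivity
          · simp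
    _ = (∑ i ∈ (range (n + 1)).filter (fun i => i % q = n % q), |u.coeff i|) * (height g : ℤ) := by
        rw [← Finset.sum_mul, Finset.sum_filter]
        congr 1
        exact Finset.Nat.sum_antidiagonal_eq_sum_range_succ_mk
          (fun x : ℕ × ℕ => if x.1 % q = n % q then |u.coeff x.1| else 0) n
    _ ≤ C * (height g : ℤ) :=
        mul_le_mul_of_nonneg_right (hu n (n + 1)) (by positivity)

theorem height_mul_expand_le {q : ℕ} (hq : 0 < q) {u g : ℤ[X]} {C : ℕ}
    (hu : ∀ r, Bd q u r C) : height (u * expand ℤ q g) ≤ C * height g := by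
  refine height_le_of_abs_le fun n => ?_
  have := abs_coeff_mul_expand_le hq hu (g := g) n
  exact_mod_cast this

/-- An injective-mod-q family of exponents meets every class at most once. -/
theorem card_filter_le_one {ι : Type*} {q : ℕ} {S : Finset ι} {f : ι → ℕ}
    (hf : ∀ s ∈ S, ∀ t ∈ S, f s % q = f t % q → s = t) (r : ℕ) :
    (S.filter (fun s => f s % q = r % q)).card ≤ 1 := by
  classical
  rw [Finset.card_le_one]
  intro a ha b hb
  rw [Finset.mem_filter] at ha hb
  exact hf a ha.1 b hb.1 (ha.2.trans hb.2.symm)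

end Pool.Agent.Lib.MP_b384de_nt
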