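import Pool.Agent.Lib.MP_b384de_nt.Classes

/-!
For primes p < q, every product of a subset of the cyclotomic polynomials of index 1, p, q, p*q
has l1 norm at most p on each residue class of exponents mod q.
-/

namespace Pool.Agent.Lib.MP_b384de_nt

open Polynomial Finset

theorem bd_X_pow (q k r : ℕ) : Bd q ((X : ℤ[X]) ^ k) r 1 := by
  have h := bd_sum_X q ({k} : Finset ℕ) (fun i => i) r
  rw [Finset.sum_singleton] at h
  refine h.mono ?_
  have : (({k} : Finset ℕ).filter (fun s => s % q = r % q)).card ≤ 1 :=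
    (Finset.card_filter_le _ _).trans (by simp)
  exact_mod_cast this

theorem bd_X_pow_sub_X_pow (q k l r : ℕ) : Bd q ((X : ℤ[X]) ^ k - X ^ l) r 2 := by
  have h := (bd_X_pow q k r).sub (bd_X_pow q l r)
  exact h.mono (by norm_num)

theorem bd_sum_of_inj {ι : Type*} {q : ℕ} {S : Finset ι} {f : ι → ℕ}
    (hf : ∀ s ∈ S, ∀ t ∈ S, f s % q = f t % q → s = t) (r : ℕ) :
    Bd q (∑ s ∈ S, (X : ℤ[X]) ^ (f s)) r 1 := by
  refine (bd_sum_X q S f r).mono ?_
  exact_mod_cast card_filter_le_one hf r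

theorem exists_bezout {p q : ℕ} (hp : 2 ≤ p) (hq : 2 ≤ q) (hc : Nat.Coprime p q) :
    ∃ a c : ℕ, 1 ≤ a ∧ a < q ∧ 1 ≤ c ∧ c < p ∧ p * a + q * c = p * q + 1 := by
  obtain ⟨a, haq, ha⟩ := Nat.exists_mul_mod_eq_one_of_coprime hc (by omega)
  have h1 : p * a = q * (p * a / q) + 1 := by
    have := Nat.div_add_mod (p * a) q
    rw [ha] at this
    exact this.symm
  set t := p * a / q with ht
  have ha1 : 1 ≤ a := by
    rcases Nat.eq_zero_or_pos a with h | h
    · subst h; simp at h1
    · exact h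
  have htp : t < p := by
    by_contra hcon
    push Not at hcon
    have h2 : p * a < p * q := Nat.mul_lt_mul_of_pos_left haq (by omega)
    have h3 : q * p ≤ q * t := Nat.mul_le_mul_left q hcon
    nlinarith
  have ht1 : 1 ≤ t := by
    rcases Nat.eq_zero_or_pos t with h | h
    · rw [h] at h1
      have : p * 1 ≤ p * a := Nat.mul_le_mul_left p ha1
      omega
    · exact h
  refine ⟨a, p - t, ha1, haq, by omega, by omega, ?_⟩
  have h4 : q * (p - t) = q * p - q * t := Nat.mul_sub q p t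
  have h5 : q * t ≤ q * p := Nat.mul_le_mul_left q htp.le
  have h6 : q * p = p * q := Nat.mul_comm q p
  omega

section Cyclo

variable {p q : ℕ}

theorem cyclotomic_mul_left (hp : p.Prime) (hq : q.Prime) (hpq : p ≠ q) :
    cyclotomic (p * q) ℤ * cyclotomic q ℤ = ∑ i ∈ range q, (X : ℤ[X]) ^ (i * p) := by
  have := Fact.mk hq
  have hnd : ¬ p ∣ q := fun h => hpq ((Nat.prime_dvd_prime_iff_eq hp hq).mp h)
  have h := cyclotomic_expand_eq_cyclotomic_mul hp hnd ℤ
  rw [mul_comm q p] at h
  rw [← h, cyclotomic_prime, map_sum]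
  refine Finset.sum_congr rfl fun i _ => ?_
  rw [map_pow, expand_X, ← pow_mul, mul_comm]

theorem cyclotomic_mul_right (hp : p.Prime) (hq : q.Prime) (hpq : p ≠ q) :
    cyclotomic (p * q) ℤ * cyclotomic p ℤ = ∑ i ∈ range p, (X : ℤ[X]) ^ (i * q) := by
  have h := cyclotomic_mul_left hq hp (Ne.symm hpq)
  rwa [mul_comm q p] at h

theorem sum_pow_mul_mul (m k : ℕ) :
    (∑ i ∈ range m, (X : ℤ[X]) ^ (i * k)) * (X ^ k - 1) = X ^ (k * m) - 1 := by
  have h := geom_sum_mul ((X : ℤ[X]) ^ k) m
  rw [← pow_mul] at h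
  rw [← h]
  congr 1
  refine Finset.sum_congr rfl fun i _ => ?_
  rw [← pow_mul, mul_comm]

theorem cyclotomic_pq_mul (hp : p.Prime) (hq : q.Prime) (hpq : p ≠ q) :
    cyclotomic (p * q) ℤ * ((X ^ p - 1) * (X ^ q - 1)) = (X ^ (p * q) - 1) * (X - 1) := by
  have := Fact.mk hq
  have h1 : (X : ℤ[X]) ^ q - 1 = cyclotomic q ℤ * (X - 1) :=
    (cyclotomic_prime_mul_X_sub_one ℤ q).symm
  calc cyclotomic (p * q) ℤ * ((X ^ p - 1) * (X ^ q - 1))
      = (cyclotomic (p * q) ℤ * cyclotomic q ℤ) * (X ^ p - 1) * (X - 1) := by rw [h1]; ring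
    _ = (X ^ (p * q) - 1) * (X - 1) := by
        rw [cyclotomic_mul_left hp hq hpq, sum_pow_mul_mul]

theorem X_pow_sub_one_ne_zero' {n : ℕ} (hn : 0 < n) : (X : ℤ[X]) ^ n - 1 ≠ 0 :=
  X_pow_sub_C_ne_zero hn 1

theorem sum_product_eq (m n k l e : ℕ) :
    ∑ s ∈ range m ×ˢ range n, (X : ℤ[X]) ^ (s.1 * k + s.2 * l + e)
      = (∑ i ∈ range m, (X : ℤ[X]) ^ (i * k)) * (∑ j ∈ range n, (X : ℤ[X]) ^ (j * l)) * X ^ e := by
  rw [Finset.sum_product, Finset.sum_mul_sum, Finset.sum_mul]
  refine Finset.sum_congr rfl fun i _ => ?_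
  rw [Finset.sum_mul]
  refine Finset.sum_congr rfl fun j _ => ?_
  rw [pow_add, pow_add]

/-- A two-block formula for the cyclotomic polynomial of index p*q, shifted by X^e. -/
theorem X_pow_mul_cyclotomic_pq (hp : p.Prime) (hq : q.Prime) (hpq : p ≠ q) {a c : ℕ}
    (haq : a < q) (hcp : c < p) (hac : p * a + q * c = p * q + 1) (e : ℕ) :
    (X : ℤ[X]) ^ e * cyclotomic (p * q) ℤ
      = ∑ s ∈ range a ×ˢ range c, (X : ℤ[X]) ^ (s.1 * p + s.2 * q + e)
        - ∑ s ∈ range (q - a) ×ˢ range (p - c), (X : ℤ[X]) ^ (s.1 * p + s.2 * q + (e + 1)) := by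
  have hne : ((X : ℤ[X]) ^ p - 1) * (X ^ q - 1) ≠ 0 :=
    mul_ne_zero (X_pow_sub_one_ne_zero' hp.pos) (X_pow_sub_one_ne_zero' hq.pos)
  refine mul_right_cancel₀ hne ?_
  rw [sum_product_eq, sum_product_eq, mul_assoc, cyclotomic_pq_mul hp hq hpq]
  have e1 := sum_pow_mul_mul a p
  have e2 := sum_pow_mul_mul c q
  have e3 := sum_pow_mul_mul (q - a) p
  have e4 := sum_pow_mul_mul (p - c) q
  generalize (∑ i ∈ range a, (X : ℤ[X]) ^ (i * p)) = U at *
  generalize (∑ i ∈ range c, (X : ℤ[X]) ^ (i * q)) = V at *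
  generalize (∑ i ∈ range (q - a), (X : ℤ[X]) ^ (i * p)) = U' at *
  generalize (∑ i ∈ range (p - c), (X : ℤ[X]) ^ (i * q)) = V' at *
  have h5 : (U * V * X ^ e - U' * V' * X ^ (e + 1)) * ((X ^ p - 1) * (X ^ q - 1))
      = X ^ e * ((U * (X ^ p - 1)) * (V * (X ^ q - 1))
          - X * ((U' * (X ^ p - 1)) * (V' * (X ^ q - 1)))) := by ring
  rw [h5, e1, e2, e3, e4]
  congr 1
  -- reduce to an identity between powers of X
  have ha : p * a + p * (q - a) = p * q := by rw [← Nat.mul_add]; congr 1; omega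
  have hc : q * c + q * (p - c) = p * q := by rw [← Nat.mul_add, Nat.mul_comm p q]; congr 1; omega
  have m1 : (X : ℤ[X]) ^ (p * a) * X ^ (q * c) = X ^ (p * q) * X := by
    rw [← pow_add, hac, pow_succ]
  have m2 : (X : ℤ[X]) ^ (p * (q - a)) * X ^ (q * (p - c)) * X = X ^ (p * q) := by
    rw [← pow_add, ← pow_succ]; congr 1; omega
  have m3 : (X : ℤ[X]) ^ (p * (q - a)) * X = X ^ (q * c) := by
    rw [← pow_succ]; congr 1; omega
  have m4 : (X : ℤ[X]) ^ (q * (p - c)) * X = X ^ (p * a) := by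
    rw [← pow_succ]; congr 1; omega
  linear_combination m2 - m1 - m3 - m4

/-- If `κ < q` solves `κ * p + e ≡ r`, it is the only index below `q` doing so. -/
theorem index_unique (hc : Nat.Coprime p q) {e r κ i : ℕ} (hκ : κ < q) (hi : i < q)
    (h1 : (κ * p + e) % q = r % q) (h2 : (i * p + e) % q = r % q) : i = κ := by
  have h3 : i * p + e ≡ κ * p + e [MOD q] := h2.trans h1.symm
  have h4 : i * p ≡ κ * p [MOD q] := Nat.ModEq.add_right_cancel' e h3
  have h5 : i ≡ κ [MOD q] := Nat.ModEq.cancel_right_of_coprime (by rwa [Nat.coprime_comm] at hc) h4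
  exact Nat.ModEq.eq_of_lt_of_lt h5 hi hκ

theorem exists_index (hc : Nat.Coprime p q) (hq : 0 < q) (e r : ℕ) :
    ∃ κ < q, (κ * p + e) % q = r % q := by
  obtain ⟨m, hm, h⟩ := Nat.exists_mul_mod_eq_of_coprime (r + (q - 1) * e) hc hq.ne'
  refine ⟨m, hm, ?_⟩
  have h1 : p * m ≡ r + (q - 1) * e [MOD q] := h
  have h2 : p * m + e ≡ r + (q - 1) * e + e [MOD q] := Nat.ModEq.add_right e h1
  have h3 : r + (q - 1) * e + e = r + q * e := by
    obtain ⟨k, rfl⟩ : ∃ k, q = k + 1 := ⟨q - 1, by omega⟩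
    simp only [Nat.add_sub_cancel]
    ring
  rw [h3] at h2
  have h4 : r + q * e ≡ r [MOD q] := by
    simp [Nat.ModEq]
  rw [mul_comm m p]
  exact h2.trans h4

theorem card_block (m n e r : ℕ) :
    ((range m ×ˢ range n).filter
      (fun s : ℕ × ℕ => (s.1 * p + s.2 * q + e) % q = r % q)).card
      = ((range m).filter (fun i => (i * p + e) % q = r % q)).card * n := by
  have : (range m ×ˢ range n).filter
      (fun s : ℕ × ℕ => (s.1 * p + s.2 * q + e) % q = r % q)
      = ((range m).filter (fun i => (i * p + e) % q = r % q)) ×ˢ range n := by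
    ext s
    simp only [Finset.mem_filter, Finset.mem_product, Finset.mem_range]
    have : (s.1 * p + s.2 * q + e) % q = (s.1 * p + e) % q := by
      rw [show s.1 * p + s.2 * q + e = s.1 * p + e + s.2 * q by ring, Nat.add_mul_mod_self_right]
    rw [this]
    tauto
  rw [this, Finset.card_product, Finset.card_range]

theorem bd_X_pow_mul_cyclotomic_pq (hp : p.Prime) (hq : q.Prime) (hpq : p ≠ q) {a c : ℕ}
    (haq : a < q) (hcp : c < p) (hac : p * a + q * c = p * q + 1) (e r κ : ℕ)
    (hκ : κ < q) (hκr : (κ * p + e) % q = r % q) :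
    Bd q ((X : ℤ[X]) ^ e * cyclotomic (p * q) ℤ) r (if κ < a then (c : ℤ) else (p : ℤ) - c) := by
  have hcop : Nat.Coprime p q := (Nat.coprime_primes hp hq).mpr hpq
  rw [X_pow_mul_cyclotomic_pq hp hq hpq haq hcp hac e]
  refine ((bd_sum_X q _ _ r).sub (bd_sum_X q _ _ r)).mono ?_
  rw [card_block, card_block]
  have hA : (range a).filter (fun i => (i * p + e) % q = r % q) ⊆ if κ < a then {κ} else ∅ := by
    intro i hi
    rw [Finset.mem_filter, Finset.mem_range] at hi
    have := index_unique hcop hκ (hi.1.trans haq) hκr hi.2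
    subst this
    rw [if_pos hi.1]
    exact Finset.mem_singleton_self _
  have hB : (range (q - a)).filter (fun i => (i * p + (e + 1)) % q = r % q)
      ⊆ if κ < a then ∅ else {κ - a} := by
    intro i hi
    rw [Finset.mem_filter, Finset.mem_range] at hi
    have h1 : ((i + a) * p + e) % q = r % q := by
      rw [← hi.2]
      have hpa : p * a ≡ 1 [MOD q] := by
        have : p * a + q * c ≡ p * q + 1 [MOD q] := by rw [hac]
        have h2 : p * a + q * c ≡ p * a [MOD q] := by
          simp [Nat.ModEq]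
        have h3 : p * q + 1 ≡ 1 [MOD q] := by
          simp [Nat.ModEq]
        exact (h2.symm.trans this).trans h3
      have h4 : (i + a) * p + e = i * p + e + p * a := by ring
      have h5 : i * p + (e + 1) = i * p + e + 1 := by ring
      rw [h4, h5]
      exact Nat.ModEq.add_left _ hpa
    have h2 := index_unique hcop hκ (by omega) hκr h1
    have h3 : ¬ κ < a := by omega
    rw [if_neg h3, Finset.mem_singleton]
    omega
  split_ifs with h
  · rw [if_pos h] at hA hB
    have h1 := Finset.card_le_card hA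
    have h2 := Finset.card_le_card hB
    rw [Finset.card_singleton] at h1
    rw [Finset.card_empty] at h2
    have h3 := Nat.mul_le_mul_right c h1
    have h4 := Nat.mul_le_mul_right (p - c) h2
    rw [one_mul] at h3
    rw [zero_mul] at h4
    have h5 := add_le_add h3 h4
    rw [add_zero] at h5
    exact_mod_cast h5
  · rw [if_neg h] at hA hB
    have h1 := Finset.card_le_card hA
    have h2 := Finset.card_le_card hB
    rw [Finset.card_empty] at h1
    rw [Finset.card_singleton] at h2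
    have h3 := Nat.mul_le_mul_right c h1
    have h4 := Nat.mul_le_mul_right (p - c) h2
    rw [zero_mul] at h3
    rw [one_mul] at h4
    have h5 := add_le_add h3 h4
    rw [zero_add] at h5
    have h6 : ((p - c : ℕ) : ℤ) = (p : ℤ) - c := by
      rw [Nat.cast_sub hcp.le]
    rw [← h6]
    exact_mod_cast h5

theorem bd_cyclotomic_pq (hp : p.Prime) (hq : q.Prime) (hpq : p ≠ q) (r : ℕ) :
    Bd q (cyclotomic (p * q) ℤ) r p := by
  have hcop : Nat.Coprime p q := (Nat.coprime_primes hp hq).mpr hpq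
  obtain ⟨a, c, ha1, haq, hc1, hcp, hac⟩ := exists_bezout hp.two_le hq.two_le hcop
  obtain ⟨κ, hκ, hκr⟩ := exists_index hcop hq.pos 0 r
  have h := bd_X_pow_mul_cyclotomic_pq hp hq hpq haq hcp hac 0 r κ hκ hκr
  rw [pow_zero, one_mul] at h
  refine h.mono ?_
  split_ifs <;> omega

theorem bd_X_sub_one_mul_cyclotomic_pq (hp : p.Prime) (hq : q.Prime) (hpq : p ≠ q) (r : ℕ) :
    Bd q ((X - 1) * cyclotomic (p * q) ℤ) r p := by
  have hcop : Nat.Coprime p q := (Nat.coprime_primes hp hq).mpr hpq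
  obtain ⟨a, c, ha1, haq, hc1, hcp, hac⟩ := exists_bezout hp.two_le hq.two_le hcop
  obtain ⟨κ, hκ, hκr⟩ := exists_index hcop hq.pos 0 r
  obtain ⟨l, hl, hlr⟩ := exists_index hcop hq.pos 1 r
  have h0 := bd_X_pow_mul_cyclotomic_pq hp hq hpq haq hcp hac 0 r κ hκ hκr
  have h1 := bd_X_pow_mul_cyclotomic_pq hp hq hpq haq hcp hac 1 r l hl hlr
  rw [pow_zero, one_mul] at h0
  rw [pow_one] at h1
  have h2 := h1.sub h0
  rw [show (X - 1) * cyclotomic (p * q) ℤ
      = X * cyclotomic (p * q) ℤ - cyclotomic (p * q) ℤ by ring]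
  refine h2.mono ?_
  -- relation between the two indices
  have hrel : κ = l + a ∨ κ + q = l + a := by
    have h3 : ((l + a) * p + 0) % q = r % q := by
      rw [← hlr]
      have hpa : p * a ≡ 1 [MOD q] := by
        have : p * a + q * c ≡ p * q + 1 [MOD q] := by rw [hac]
        have h2 : p * a + q * c ≡ p * a [MOD q] := by
          simp [Nat.ModEq]
        have h3 : p * q + 1 ≡ 1 [MOD q] := by
          simp [Nat.ModEq]
        exact (h2.symm.trans this).trans h3
      have h4 : (l + a) * p + 0 = l * p + p * a := by ring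
      rw [h4]
      exact Nat.ModEq.add_left _ hpa
    by_cases hlt : l + a < q
    · left
      exact (index_unique hcop hκ hlt hκr h3).symm
    · right
      have h4 : ((l + a - q) * p + 0) % q = r % q := by
        rw [← h3]
        have h5 : (l + a) * p + 0 = (l + a - q) * p + 0 + p * q := by
          obtain ⟨t, ht⟩ : ∃ t, l + a = t + q := ⟨l + a - q, by omega⟩
          rw [ht, Nat.add_sub_cancel]
          ring
        rw [h5, Nat.add_mul_mod_self_right]
      have h6 := index_unique hcop hκ (by omega) hκr h4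
      omega
  have hp2 := hp.two_le
  have hq2 := hq.two_le
  have key1 : q < 2 * a → 2 * c ≤ p := by
    intro h
    by_contra hcon
    push Not at hcon
    nlinarith
  have key2 : 2 * a < q → p ≤ 2 * c := by
    intro h
    by_contra hcon
    push Not at hcon
    nlinarith
  split_ifs with ha hb hb
  · have : q < 2 * a := by omega
    have := key1 this
    omega
  · omega
  · omega
  · have : 2 * a < q := by omega
    have := key2 this
    omega

end Cyclo

end Pool.Agent.Lib.MP_b384de_nt
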