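import Pool.Agent.Lib.MP_b384de_nt.Cyclo

/-!
The sixteen products of cyclotomic polynomials of index 1, p, q, p*q.
-/

namespace Pool.Agent.Lib.MP_b384de_nt

open Polynomial Finset

theorem bd_u {p q : ℕ} (hp : p.Prime) (hq : q.Prime) (hpq : p < q) (S : Finset ℕ)
    (hS : S ⊆ {1, p, q, p * q}) (r : ℕ) : Bd q (∏ d ∈ S, cyclotomic d ℤ) r p := by
  have hne : p ≠ q := hpq.ne
  have hp2 : 2 ≤ p := hp.two_le
  have hq2 : 2 ≤ q := hq.two_le
  have hp2' : (2 : ℤ) ≤ p := by exact_mod_cast hp2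
  have e1 : cyclotomic 1 ℤ = X - 1 := cyclotomic_one ℤ
  have ep : cyclotomic p ℤ = ∑ i ∈ range p, X ^ i := by
    have := Fact.mk hp; exact cyclotomic_prime ℤ p
  have eq' : cyclotomic q ℤ = ∑ i ∈ range q, X ^ i := by
    have := Fact.mk hq; exact cyclotomic_prime ℤ q
  have ep1 : cyclotomic p ℤ * (X - 1) = X ^ p - 1 := by
    have := Fact.mk hp; exact cyclotomic_prime_mul_X_sub_one ℤ p
  have eq1 : cyclotomic q ℤ * (X - 1) = X ^ q - 1 := by
    have := Fact.mk hq; exact cyclotomic_prime_mul_X_sub_one ℤ q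
  have ea := cyclotomic_mul_left hp hq hne
  have eb := cyclotomic_mul_right hp hq hne
  have eall : cyclotomic (p * q) ℤ * cyclotomic q ℤ * cyclotomic p ℤ * (X - 1)
      = X ^ (p * q) - 1 := by
    rw [mul_assoc, ep1, ea, sum_pow_mul_mul]
  have eall2 : cyclotomic (p * q) ℤ * cyclotomic q ℤ * cyclotomic p ℤ
      = ∑ s ∈ range (p * q), X ^ s := by
    have h := geom_sum_mul (X : ℤ[X]) (p * q)
    have hne' : (X : ℤ[X]) - 1 ≠ 0 := by
      have := X_pow_sub_one_ne_zero' (n := 1) one_pos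
      rwa [pow_one] at this
    refine mul_right_cancel₀ hne' ?_
    rw [eall, h]
  -- the basic bounds
  have b2 : ∀ k l : ℕ, Bd q ((X : ℤ[X]) ^ k - X ^ l) r p := fun k l =>
    (bd_X_pow_sub_X_pow q k l r).mono hp2'
  have bp : Bd q (∑ i ∈ range p, (X : ℤ[X]) ^ i) r 1 := by
    refine bd_sum_of_inj (f := fun i => i) ?_ r
    intro s hs t ht h
    rw [Finset.mem_range] at hs ht
    exact Nat.ModEq.eq_of_lt_of_lt (m := q) h (hs.trans hpq) (ht.trans hpq)
  have bq : ∀ e, Bd q (∑ i ∈ range q, (X : ℤ[X]) ^ (i + e)) r 1 := by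
    intro e
    refine bd_sum_of_inj (f := fun i => i + e) ?_ r
    intro s hs t ht h
    rw [Finset.mem_range] at hs ht
    exact Nat.ModEq.eq_of_lt_of_lt (m := q) (Nat.ModEq.add_right_cancel' e h) hs ht
  have bpe : ∀ e, Bd q (∑ i ∈ range p, (X : ℤ[X]) ^ (i + e)) r 1 := by
    intro e
    refine bd_sum_of_inj (f := fun i => i + e) ?_ r
    intro s hs t ht h
    rw [Finset.mem_range] at hs ht
    exact Nat.ModEq.eq_of_lt_of_lt (m := q) (Nat.ModEq.add_right_cancel' e h) (hs.trans hpq)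
      (ht.trans hpq)
  have hcop : Nat.Coprime p q := (Nat.coprime_primes hp hq).mpr hne
  have bqp : ∀ e, Bd q (∑ i ∈ range q, (X : ℤ[X]) ^ (i * p + e)) r 1 := by
    intro e
    refine bd_sum_of_inj (f := fun i => i * p + e) ?_ r
    intro s hs t ht h
    rw [Finset.mem_range] at hs ht
    exact index_unique hcop ht hs (r := t * p + e) rfl h
  have bpq : ∀ e, Bd q (∑ i ∈ range p, (X : ℤ[X]) ^ (i * q + e)) r
      (if e % q = r % q then (p : ℤ) else 0) := by
    intro e
    refine (bd_sum_X q (range p) (fun i => i * q + e) r).mono ?_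
    have : ∀ i, (i * q + e) % q = e % q := fun i => by
      rw [add_comm, Nat.add_mul_mod_self_right]
    simp only [this]
    split_ifs with h
    · simp [h]
    · simp [h]
  -- reduce to sixteen cases
  have h1p : (1 : ℕ) ≠ p := by omega
  have h1q : (1 : ℕ) ≠ q := by omega
  have h1pq : (1 : ℕ) ≠ p * q := by nlinarith
  have hppq : p ≠ p * q := by nlinarith
  have hqpq : q ≠ p * q := by nlinarith
  have hprod : ∏ d ∈ S, cyclotomic d ℤ
      = (if 1 ∈ S then cyclotomic 1 ℤ else 1) * ((if p ∈ S then cyclotomic p ℤ else 1) *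
        ((if q ∈ S then cyclotomic q ℤ else 1) *
          (if p * q ∈ S then cyclotomic (p * q) ℤ else 1))) := by
    rw [← Finset.inter_eq_right.mpr hS, ← Finset.prod_ite_mem]
    rw [Finset.prod_insert, Finset.prod_insert, Finset.prod_insert, Finset.prod_singleton]
    · simp
    · simpa using hqpq
    · simp [hne, hppq]
    · simp [h1p, h1q, h1pq]
  rw [hprod]
  split_ifs
  · -- all four
    have : cyclotomic 1 ℤ * (cyclotomic p ℤ * (cyclotomic q ℤ * cyclotomic (p * q) ℤ))
        = X ^ (p * q) - X ^ 0 := by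
      rw [e1, pow_zero, ← eall]; ring
    rw [this]; exact b2 _ _
  · -- 1, p, q
    have : cyclotomic 1 ℤ * (cyclotomic p ℤ * (cyclotomic q ℤ * 1))
        = ∑ i ∈ range p, X ^ (i + q) - ∑ i ∈ range p, X ^ (i + 0) := by
      rw [e1, mul_one, show (X - 1) * (cyclotomic p ℤ * cyclotomic q ℤ)
        = cyclotomic p ℤ * (cyclotomic q ℤ * (X - 1)) by ring, eq1, ep, mul_sub, Finset.sum_mul]
      simp [pow_add]
    rw [this]; exact ((bpe _).sub (bpe _)).mono (by linarith)
  · -- 1, p, p*q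
    have : cyclotomic 1 ℤ * (cyclotomic p ℤ * (1 * cyclotomic (p * q) ℤ))
        = ∑ i ∈ range p, X ^ (i * q + 1) - ∑ i ∈ range p, X ^ (i * q + 0) := by
      rw [e1, one_mul, show (X - 1) * (cyclotomic p ℤ * cyclotomic (p * q) ℤ)
        = (cyclotomic (p * q) ℤ * cyclotomic p ℤ) * X
          - (cyclotomic (p * q) ℤ * cyclotomic p ℤ) by ring, eb, Finset.sum_mul]
      simp [pow_succ]
    rw [this]
    refine ((bpq 1).sub (bpq 0)).mono ?_
    have h01 : ¬ (1 % q = r % q ∧ 0 % q = r % q) := by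
      rintro ⟨h, h'⟩
      have : 1 % q = 0 % q := h.trans h'.symm
      rw [Nat.mod_eq_of_lt (by omega), Nat.zero_mod] at this
      omega
    split_ifs with g1 g2 g2
    · exact absurd ⟨g1, g2⟩ h01
    all_goals linarith
  · -- 1, p
    have : cyclotomic 1 ℤ * (cyclotomic p ℤ * (1 * 1)) = X ^ p - X ^ 0 := by
      rw [e1, pow_zero, ← ep1]; ring
    rw [this]; exact b2 _ _
  · -- 1, q, p*q
    have : cyclotomic 1 ℤ * (1 * (cyclotomic q ℤ * cyclotomic (p * q) ℤ))
        = ∑ i ∈ range q, X ^ (i * p + 1) - ∑ i ∈ range q, X ^ (i * p + 0) := by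
      rw [e1, one_mul, show (X - 1) * (cyclotomic q ℤ * cyclotomic (p * q) ℤ)
        = (cyclotomic (p * q) ℤ * cyclotomic q ℤ) * X
          - (cyclotomic (p * q) ℤ * cyclotomic q ℤ) by ring, ea, Finset.sum_mul]
      simp [pow_succ]
    rw [this]; exact ((bqp _).sub (bqp _)).mono (by linarith)
  · -- 1, q
    have : cyclotomic 1 ℤ * (1 * (cyclotomic q ℤ * 1)) = X ^ q - X ^ 0 := by
      rw [e1, pow_zero, ← eq1]; ring
    rw [this]; exact b2 _ _
  · -- 1, p*q
    have : cyclotomic 1 ℤ * (1 * (1 * cyclotomic (p * q) ℤ)) = (X - 1) * cyclotomic (p * q) ℤ := by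
      rw [e1]; ring
    rw [this]; exact bd_X_sub_one_mul_cyclotomic_pq hp hq hne r
  · -- 1
    have : cyclotomic 1 ℤ * (1 * (1 * 1)) = (X : ℤ[X]) ^ 1 - X ^ 0 := by
      rw [e1]; ring
    rw [this]; exact b2 _ _
  · -- p, q, p*q
    have : (1 : ℤ[X]) * (cyclotomic p ℤ * (cyclotomic q ℤ * cyclotomic (p * q) ℤ))
        = ∑ s ∈ range q ×ˢ range p, X ^ (s.1 * 1 + s.2 * q + 0) := by
      rw [sum_product_eq, pow_zero, mul_one]
      simp only [mul_one]
      rw [← eq', ← eb]; ring
    rw [this]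
    refine (bd_sum_X q _ _ r).mono ?_
    have hcard : ((range q ×ˢ range p).filter
        (fun s : ℕ × ℕ => (s.1 * 1 + s.2 * q + 0) % q = r % q)).card
        = ((range q).filter (fun i => (i * 1 + 0) % q = r % q)).card * p := card_block q p 0 r
    rw [hcard]
    have : ((range q).filter (fun i => (i * 1 + 0) % q = r % q)).card ≤ 1 := by
      refine card_filter_le_one (f := fun i => i * 1 + 0) ?_ r
      intro s hs t ht h
      rw [Finset.mem_range] at hs ht
      simp only [mul_one, add_zero] at h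
      exact Nat.ModEq.eq_of_lt_of_lt (m := q) h hs ht
    have h2 := Nat.mul_le_mul_right p this
    rw [one_mul] at h2
    exact_mod_cast h2
  · -- p, q
    have : (1 : ℤ[X]) * (cyclotomic p ℤ * (cyclotomic q ℤ * 1))
        = ∑ s ∈ range q ×ˢ range p, X ^ (s.1 + s.2) := by
      rw [Finset.sum_product, one_mul, mul_one, mul_comm, ep, eq', Finset.sum_mul_sum]
      simp only [pow_add]
    rw [this]
    refine (bd_sum_X q _ _ r).mono ?_
    have h3 : ((range q ×ˢ range p).filter
        (fun s : ℕ × ℕ => (s.1 + s.2) % q = r % q)).card ≤ (range p).card := by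
      refine Finset.card_le_card_of_injOn (fun s => s.2) ?_ ?_
      · intro s hs
        simp only [Finset.coe_filter, Finset.mem_product, Set.mem_ofPred_eq] at hs
        exact hs.1.2
      · intro s hs t ht h
        simp only [Finset.coe_filter, Finset.mem_product, Finset.mem_range,
          Set.mem_ofPred_eq] at hs ht
        have h : s.2 = t.2 := h
        have h4 : s.1 + s.2 ≡ t.1 + s.2 [MOD q] := by
          have h5 : (s.1 + s.2) % q = (t.1 + t.2) % q := hs.2.trans ht.2.symm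
          rw [← h] at h5
          exact h5
        have h6 := Nat.ModEq.eq_of_lt_of_lt (Nat.ModEq.add_right_cancel' _ h4) hs.1.1 ht.1.1
        exact Prod.ext h6 h
    rw [Finset.card_range] at h3
    exact_mod_cast h3
  · -- p, p*q
    have : (1 : ℤ[X]) * (cyclotomic p ℤ * (1 * cyclotomic (p * q) ℤ))
        = ∑ i ∈ range p, X ^ (i * q + 0) := by
      rw [one_mul, one_mul, mul_comm, eb]; rfl
    rw [this]
    refine (bpq 0).mono ?_
    split_ifs <;> linarith
  · -- p
    have : (1 : ℤ[X]) * (cyclotomic p ℤ * (1 * 1)) = ∑ i ∈ range p, X ^ i := by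
      rw [one_mul, one_mul, mul_one, ep]
    rw [this]; exact bp.mono (by linarith)
  · -- q, p*q
    have : (1 : ℤ[X]) * (1 * (cyclotomic q ℤ * cyclotomic (p * q) ℤ))
        = ∑ i ∈ range q, X ^ (i * p + 0) := by
      rw [one_mul, one_mul, mul_comm, ea]; rfl
    rw [this]; exact (bqp _).mono (by linarith)
  · -- q
    have : (1 : ℤ[X]) * (1 * (cyclotomic q ℤ * 1)) = ∑ i ∈ range q, X ^ (i + 0) := by
      rw [one_mul, one_mul, mul_one, eq']; rfl
    rw [this]; exact (bq _).mono (by linarith)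
  · -- p*q
    have : (1 : ℤ[X]) * (1 * (1 * cyclotomic (p * q) ℤ)) = cyclotomic (p * q) ℤ := by ring
    rw [this]; exact bd_cyclotomic_pq hp hq hne r
  · -- none
    have : (1 : ℤ[X]) * (1 * (1 * 1)) = X ^ 0 := by ring
    rw [this]; exact (bd_X_pow q 0 r).mono (by linarith)

end Pool.Agent.Lib.MP_b384de_nt
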